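import Pool.Agent.W889.FO.Pos
import Pool.Agent.W889.FO.All

set_option autoImplicit false

/-! Vaught's conjecture (perfect-set form) for first-order theories. (A) It is equivalent, for
every `k`, to its restriction to the complete theories in one finite relational language all of
whose countable models have a `k`-transitive automorphism group and no algebraicity. (B) A
dichotomy for theories of graphs with finitely many forbidden (not necessarily induced) subgraphs:
the conjecture holds for them if one of the forbidden graphs is a subgraph of a disjoint union of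
subdivided stars, and otherwise it is equivalent to the conjecture for all first-order theories in
all countable languages. -/

namespace Pool.Agent.Results.MP_5df2c5_lc.FirstOrderReductions

open FirstOrder

/-- Vaught's conjecture, perfect-set form, for the theory `T` in the language `L` (the body of the
frozen statement): the models with universe `ℕ` fall into countably many isomorphism classes, or
some continuous family of models, indexed by the Cantor space, consists of pairwise
non-isomorphic models. -/
def Dichotomy (L : FirstOrder.Language.{0, 0}) (T : L.Theory) : Prop :=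
  (∃ g : ℕ → L.Structure ℕ, ∀ S : L.Structure ℕ,
      @FirstOrder.Language.Theory.Model L ℕ S T →
        ∃ n : ℕ, Nonempty (@FirstOrder.Language.Equiv L ℕ ℕ S (g n))) ∨
  (∃ f : (ℕ → Bool) → L.Structure ℕ,
      (∀ x : ℕ → Bool, @FirstOrder.Language.Theory.Model L ℕ (f x) T) ∧
      (∀ x y : ℕ → Bool,
          Nonempty (@FirstOrder.Language.Equiv L ℕ ℕ (f x) (f y)) → x = y) ∧
      (∀ (n : ℕ) (R : L.Relations n) (a : Fin n → ℕ),
          IsClopen {x : ℕ → Bool | @FirstOrder.Language.Structure.RelMap L ℕ (f x) n R a}) ∧
      (∀ (n : ℕ) (F : L.Functions n) (a : Fin n → ℕ) (b : ℕ),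
          IsOpen {x : ℕ → Bool | @FirstOrder.Language.Structure.funMap L ℕ (f x) n F a = b}))

/-- Vaught's conjecture for all first-order theories in all countable languages (the frozen
statement). -/
def FullConjecture : Prop :=
  ∀ L : FirstOrder.Language.{0, 0}, Countable L.Symbols → ∀ T : L.Theory, Dichotomy L T

/-- the automorphism group of the structure is transitive on the `k`-tuples of distinct
elements -/
def Transitive {L : FirstOrder.Language.{0, 0}} (k : ℕ) (S : L.Structure ℕ) : Prop :=
  ∀ x y : Fin k → ℕ, Function.Injective x → Function.Injective y →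
    ∃ σ : @FirstOrder.Language.Equiv L ℕ ℕ S S, ∀ i, σ (x i) = y i

/-- no algebraicity: no element outside a finite set `F` has a finite orbit under the
automorphisms which fix the elements of `F` -/
def NoAlgebraicity {L : FirstOrder.Language.{0, 0}} (S : L.Structure ℕ) : Prop :=
  ∀ (F : Finset ℕ) (a : ℕ), a ∉ F →
    {b : ℕ | ∃ σ : @FirstOrder.Language.Equiv L ℕ ℕ S S, (∀ c ∈ F, σ c = c) ∧ σ a = b}.Infinite

/-- The graph `H` is a (not necessarily induced) subgraph of `r`. -/
def SubOf {V W : Type} (H : SimpleGraph V) (r : W → W → Prop) : Prop :=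
  ∃ f : V → W, Function.Injective f ∧ ∀ u v, H.Adj u v → r (f u) (f v)

/-- The disjoint union of infinitely many infinite stars all of whose edges are replaced by
infinite paths: centres `(s, none)`, and legs `(s, some (l, 0)), (s, some (l, 1)), ...`. -/
def spiders : SimpleGraph (ℕ × Option (ℕ × ℕ)) :=
  SimpleGraph.fromRel fun u v => u.1 = v.1 ∧
    ((u.2 = none ∧ ∃ l, v.2 = some (l, 0)) ∨ ∃ l d, u.2 = some (l, d) ∧ v.2 = some (l, d + 1))

/-- Adjacency in the Gaifman graph: two distinct elements occur together in a tuple of some
relation. -/
def Gaifman {L : FirstOrder.Language.{0, 0}} (S : L.Structure ℕ) (u v : ℕ) : Prop :=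
  u ≠ v ∧ ∃ (n : ℕ) (R : L.Relations n) (t : Fin n → ℕ),
    @FirstOrder.Language.Structure.RelMap L ℕ S n R t ∧ u ∈ Set.range t ∧ v ∈ Set.range t

/-- Adjacency in a structure in the language of graphs. -/
def Adj (S : FirstOrder.Language.graph.Structure ℕ) (u v : ℕ) : Prop :=
  @FirstOrder.Language.Structure.RelMap FirstOrder.Language.graph ℕ S 2
    FirstOrder.Language.adj ![u, v]

/-- The models of `T` on `ℕ` are simple graphs without subgraph `H i`, for all `i`. -/
def Omits {ι : Type} {V : ι → Type} (H : ∀ i, SimpleGraph (V i))
    (T : FirstOrder.Language.graph.Theory) : Prop :=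
  ∀ S : FirstOrder.Language.graph.Structure ℕ,
    @FirstOrder.Language.Theory.Model FirstOrder.Language.graph ℕ S T →
      (∀ u, ¬ Adj S u u) ∧ (∀ u v, Adj S u v → Adj S v u) ∧ ∀ i, ¬ SubOf (H i) (Adj S)

/-- (A) For every `k` there is a finite relational language `L₀` such that the full conjecture is
equivalent to its restriction to the complete `L₀`-theories all of whose models on `ℕ` have a
`k`-transitive automorphism group and no algebraicity.
(B) Let `H i` be countable graphs (finite or infinite). (B1) If some `H i` is a subgraph of a
disjoint union of subdivided stars then Vaught's conjecture holds for every theory, in every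
countable relational language, such that the Gaifman graphs of its models on `ℕ` have no subgraph
`H i`. (B2) If there are finitely many `H i` and none of them is a subgraph of a disjoint union of
subdivided stars then the full conjecture is equivalent to Vaught's conjecture for the complete
theories of graphs without subgraphs `H i`. -/
theorem result :
    (∀ k : ℕ, ∃ L₀ : FirstOrder.Language.{0, 0}, L₀.IsRelational ∧ Finite L₀.Symbols ∧
      (FullConjecture ↔ ∀ T : L₀.Theory, T.IsComplete →
        (∀ S : L₀.Structure ℕ, @FirstOrder.Language.Theory.Model L₀ ℕ S T →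
          Transitive k S ∧ NoAlgebraicity S) → Dichotomy L₀ T)) ∧
    ∀ (ι : Type) (V : ι → Type), (∀ i, Countable (V i)) → ∀ H : ∀ i, SimpleGraph (V i),
      ((∃ i, SubOf (H i) spiders.Adj) →
        ∀ L : FirstOrder.Language.{0, 0}, Countable L.Symbols → L.IsRelational →
          ∀ T : L.Theory, (∀ S : L.Structure ℕ, @FirstOrder.Language.Theory.Model L ℕ S T →
            ∀ i, ¬ SubOf (H i) (Gaifman S)) → Dichotomy L T) ∧
      (Finite ι → (∀ i, ¬ SubOf (H i) spiders.Adj) →
        (FullConjecture ↔ ∀ T : FirstOrder.Language.graph.Theory, T.IsComplete → Omits H T →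
          Dichotomy FirstOrder.Language.graph T)) := by
  refine ⟨fun k => ?_, fun ι V hV H => ⟨?_, ?_⟩⟩
  · have hfin : Finite (Pool.Agent.W889.FO.TL k Pool.Agent.W889.FO.StB.LB).Symbols :=
      Pool.Agent.W889.FO.finite_TL k
    refine ⟨Pool.Agent.W889.FO.TL k Pool.Agent.W889.FO.StB.LB, inferInstance, hfin, ?_, ?_⟩
    · intro h T _ _
      exact h _ Finite.to_countable T
    · intro h L hL T
      exact Pool.Agent.W889.FO.full k h L hL T
  · rintro ⟨i, hi⟩ L hL hR T hT
    have h1 : Countable (Σ n, L.Relations n) :=
      (Sum.inr_injective (α := Σ n, L.Functions n) (β := Σ n, L.Relations n)).countable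
    exact (Pool.Agent.W889.FO.vaughtF_iff L T).2
      (Pool.Agent.W889.FO.Pos.main H (i := i) hi T hT)
  · intro hfin hne
    constructor
    · intro h T _ _
      have h1 : Countable FirstOrder.Language.graph.Symbols := by
        have h2 : Countable (Σ n, FirstOrder.Language.graph.Relations n) :=
          Pool.Agent.W889.FO.StD.countable_LG
        have h3 : IsEmpty (Σ n, FirstOrder.Language.graph.Functions n) :=
          ⟨fun p => Empty.elim p.2⟩
        exact inferInstanceAs (Countable ((Σ n, FirstOrder.Language.graph.Functions n) ⊕
          Σ n, FirstOrder.Language.graph.Relations n))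
      exact h _ h1 T
    · intro h L hL T
      have h1 := fun i => Pool.Agent.W889.SD.avoid (H i) (hne i)
      choose m hm using h1
      obtain ⟨k, hk⟩ := (Set.finite_range m).bddAbove
      refine Pool.Agent.W889.FO.St0.reduce L (fun T1 => ?_) T
      have := Pool.Agent.W889.FO.St0.countable_LF (L := L)
      refine Pool.Agent.W889.FO.to_subd k (fun T2 hT2 => ?_) _ T1
      have := Pool.Agent.W889.FO.StD.countable_LG
      refine Pool.Agent.W889.FO.of_complete T2 fun S hS => ?_
      refine (Pool.Agent.W889.FO.vaughtF_iff _ _).1 (h _ ?_ fun S' hS' => ?_)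
      · exact @FirstOrder.Language.completeTheory.isComplete FirstOrder.Language.graph ℕ S _
      · have hW := hT2 S' (Pool.Agent.W889.FO.ax_iff.2 fun φ hφ =>
          Pool.Agent.W889.FO.ax_iff.1 hS' φ (Pool.Agent.W889.FO.ax_iff.1 hS φ hφ))
        exact ⟨hW.irrefl, hW.symm, fun i => hm i k (hk ⟨i, rfl⟩) ℕ _ hW⟩

end Pool.Agent.Results.MP_5df2c5_lc.FirstOrderReductions
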