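import Pool.Agent.W921.VP.Final
import Pool.Agent.W889.FO.St0
import Pool.Agent.Results.MP_5df2c5_lc.SigmaTwoTheories

set_option autoImplicit false

/-!
Vaught's conjecture, perfect-set form, for first-order theories according to the quantifiers of
their axioms (countable relational languages with equality, infinitely many axioms allowed):
it holds for all theories with axioms of the form `∃* ∀^a ∃*`, `a ≤ 2` (the Gödel class), and
it is equivalent to its restriction to the theories whose axioms have the form `∀∀∀` or `∀∀∃`, in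
languages with unary and binary relation symbols only.
-/

namespace Pool.Agent.Results.MP_5df2c5_lc.QuantifierClasses

open FirstOrder FirstOrder.Language

/-- `Shape c a b φ`: the formula `φ` is `∃^c ∀^a ∃^b ψ` with `ψ` quantifier-free. -/
inductive Shape {L : FirstOrder.Language.{0, 0}} :
    ℕ → ℕ → ℕ → {n : ℕ} → L.BoundedFormula Empty n → Prop
  | qf {n : ℕ} {ψ : L.BoundedFormula Empty n} : ψ.IsQF → Shape 0 0 0 ψ
  | ex {b n : ℕ} {ψ : L.BoundedFormula Empty (n + 1)} : Shape 0 0 b ψ → Shape 0 0 (b + 1) ψ.ex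
  | all {a b n : ℕ} {ψ : L.BoundedFormula Empty (n + 1)} : Shape 0 a b ψ → Shape 0 (a + 1) b ψ.all
  | wit {c a b n : ℕ} {ψ : L.BoundedFormula Empty (n + 1)} : Shape c a b ψ → Shape (c + 1) a b ψ.ex

/-- Vaught's conjecture, perfect-set form, for the theory `T` in the language `L` (the body of the
frozen statement): the models with universe `ℕ` fall into countably many isomorphism classes, or
some continuous family of models, indexed by the Cantor space, consists of pairwise
non-isomorphic models. -/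
def Dichotomy (L : FirstOrder.Language.{0, 0}) (T : L.Theory) : Prop :=
  (∃ g : ℕ → L.Structure ℕ, ∀ S : L.Structure ℕ,
      @FirstOrder.Language.Theory.Model L ℕ S T →
        ∃ n : ℕ, Nonempty (@FirstOrder.Language.Equiv L ℕ ℕ S (g n))) ∨
  (∃ f : (ℕ → Bool) → L.Structure ℕ,
      (∀ x : ℕ → Bool, @FirstOrder.Language.Theory.Model L ℕ (f x) T) ∧
      (∀ x y : ℕ → Bool,
          Nonempty (@FirstOrder.Language.Equiv L ℕ ℕ (f x) (f y)) → x = y) ∧
      (∀ (n : ℕ) (R : L.Relations n) (a : Fin n → ℕ),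
          IsClopen {x : ℕ → Bool | @FirstOrder.Language.Structure.RelMap L ℕ (f x) n R a}) ∧
      (∀ (n : ℕ) (F : L.Functions n) (a : Fin n → ℕ) (b : ℕ),
          IsOpen {x : ℕ → Bool | @FirstOrder.Language.Structure.funMap L ℕ (f x) n F a = b}))

/-- Vaught's conjecture for all first-order theories in all countable languages (the frozen
statement). -/
def FullConjecture : Prop :=
  ∀ L : FirstOrder.Language.{0, 0}, Countable L.Symbols → ∀ T : L.Theory, Dichotomy L T

/-- Vaught's conjecture for the theories in countable relational languages all of whose axioms have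
a form in `P`, where `(c, a, b)` stands for the form `∃^c ∀^a ∃^b`. -/
def ForForms (P : ℕ → ℕ → ℕ → Prop) : Prop :=
  ∀ L : FirstOrder.Language.{0, 0}, Countable L.Symbols → L.IsRelational → ∀ T : L.Theory,
    (∀ σ ∈ T, ∃ c a b, P c a b ∧ Shape c a b (σ : L.BoundedFormula Empty 0)) → Dichotomy L T

/-- The same for languages with unary and binary relation symbols only. -/
def ForFormsBinary (P : ℕ → ℕ → ℕ → Prop) : Prop :=
  ∀ L : FirstOrder.Language.{0, 0}, Countable L.Symbols → L.IsRelational →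
    (∀ n, n ≠ 1 → n ≠ 2 → IsEmpty (L.Relations n)) → ∀ T : L.Theory,
    (∀ σ ∈ T, ∃ c a b, P c a b ∧ Shape c a b (σ : L.BoundedFormula Empty 0)) → Dichotomy L T

section transfer

open Pool.Agent.W921.VP

variable {L : FirstOrder.Language.{0, 0}}

theorem shape_iff {c a b n : ℕ} {φ : L.BoundedFormula Empty n} : Shape c a b φ ↔ Pre c a b φ := by
  constructor
  · intro h
    induction h with
    | qf h => exact .qf h
    | ex _ ih => exact .ex ih
    | all _ ih => exact .all ih
    | wit _ ih => exact .wit ih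
  · intro h
    induction h with
    | qf h => exact .qf h
    | ex _ ih => exact .ex ih
    | all _ ih => exact .all ih
    | wit _ ih => exact .wit ih

theorem isom_iff (hr : L.IsRelational) {M N : Type} (S : L.Structure M) (S' : L.Structure N) :
    Isom S S' ↔ Nonempty (@FirstOrder.Language.Equiv L M N S S') := by
  constructor
  · rintro ⟨e, he⟩
    exact ⟨{ toEquiv := e
             map_fun' := fun f => isEmptyElim f
             map_rel' := fun R s => (he _ R s).symm }⟩
  · rintro ⟨g⟩
    exact ⟨g.toEquiv, fun n R s => (g.map_rel' R s).symm⟩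

theorem dich_iff (hr : L.IsRelational) (T : L.Theory) : Dich T ↔ Dichotomy L T := by
  constructor
  · rintro (⟨g, hg⟩ | ⟨f, h1, h2, h3⟩)
    · refine Or.inl ⟨g, fun S hS => ?_⟩
      obtain ⟨n, hn⟩ := hg S hS
      exact ⟨n, (isom_iff hr _ _).1 hn⟩
    · exact Or.inr ⟨f, h1, fun x y h => h2 x y ((isom_iff hr _ _).2 h), h3,
        fun n F => isEmptyElim F⟩
  · rintro (⟨g, hg⟩ | ⟨f, h1, h2, h3, -⟩)
    · refine Or.inl ⟨g, fun S hS => ?_⟩
      obtain ⟨n, hn⟩ := hg S hS
      exact ⟨n, (isom_iff hr _ _).2 hn⟩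
    · exact Or.inr ⟨f, h1, fun x y h => h2 x y ((isom_iff hr _ _).1 h), h3⟩

/-- The conjecture for relational languages gives the full conjecture. -/
theorem full_of_q1 (h : Q1) : FullConjecture := by
  intro L hL T
  refine Pool.Agent.W889.FO.St0.reduce L (fun T' => ?_) T
  have h1 := Pool.Agent.W889.FO.St0.countable_LF (L := L)
  have h2 : Countable (Pool.Agent.W889.FO.St0.LF L).Symbols :=
    inferInstanceAs (Countable ((Σ n, (Pool.Agent.W889.FO.St0.LF L).Functions n) ⊕
      Σ n, (Pool.Agent.W889.FO.St0.LF L).Relations n))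
  have h3 : (Pool.Agent.W889.FO.St0.LF L).IsRelational := inferInstance
  exact (Pool.Agent.W889.FO.vaughtF_iff _ _).1 ((dich_iff h3 T').1 (h _ h2 h3 T'))

theorem q1_of_vc3 (h : VC3) : Q1 :=
  Pool.Agent.W921.VP.com3 Pool.Agent.W240.VPSYN2.task Pool.Agent.W921.VP.Final.tup
    Pool.Agent.W921.VP.Final.dec Pool.Agent.W921.VP.Final.iso Pool.Agent.W921.VP.Final.top h

theorem universal_of_shape' {c a b n : ℕ} {φ : L.BoundedFormula Empty n} (h : Shape c a b φ) :
    c = 0 → b = 0 → φ.IsUniversal := by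
  induction h with
  | qf h => exact fun _ _ => h.isUniversal
  | ex _ _ => exact fun _ h => absurd h (Nat.succ_ne_zero _)
  | all _ ih => exact fun h1 h2 => (ih h1 h2).all
  | wit _ _ => exact fun h _ => absurd h (Nat.succ_ne_zero _)

theorem universal_of_shape {a n : ℕ} {φ : L.BoundedFormula Empty n} (h : Shape 0 a 0 φ) :
    φ.IsUniversal :=
  universal_of_shape' h rfl rfl

/-- Theories with universal axioms: a starting result. -/
theorem universal (L : FirstOrder.Language.{0, 0}) (hL : Countable L.Symbols) (hr : L.IsRelational)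
    (T : L.Theory) (hT : ∀ σ ∈ T, ∃ a, Shape 0 a 0 (σ : L.BoundedFormula Empty 0)) :
    Dichotomy L T := by
  have h := Pool.Agent.Results.MP_5df2c5_lc.SigmaTwoTheories.result L hL
    (fun n => inferInstance) T
  refine h.1 (h.2 ⟨∅, Set.empty_subset _, Set.finite_empty, by simp, fun φ hφ => Or.inr ?_⟩)
  obtain ⟨a, ha⟩ := hT φ hφ
  exact universal_of_shape ha

end transfer

/-- (1) Vaught's conjecture, perfect-set form, holds for every theory in a countable relational
language whose axioms have the form `∃* ∀^a ∃*` with `a ≤ 2`. (2) It is equivalent, for all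
theories in all countable languages, to its restriction to the theories in languages with unary and
binary relation symbols only whose axioms have the form `∀∀∀` or `∀∀∃`. (3) So, for theories all of
whose axioms have the form `∀^a ∃^b`, it holds if `a ≤ 2` or `b = 0`, and in all other cases it is
equivalent to the full conjecture. -/
theorem result :
    ForForms (fun _ a _ => a ≤ 2) ∧
    (ForFormsBinary (fun c a b => c = 0 ∧ ((a = 3 ∧ b = 0) ∨ (a = 2 ∧ b = 1))) ↔
      FullConjecture) ∧
    ∀ a₀ b₀ : ℕ,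
      ((a₀ ≤ 2 ∨ b₀ = 0) → ForForms (fun c a b => c = 0 ∧ a = a₀ ∧ b = b₀)) ∧
      ((3 ≤ a₀ ∧ 1 ≤ b₀) → (ForFormsBinary (fun c a b => c = 0 ∧ a = a₀ ∧ b = b₀) ↔
        FullConjecture)) := by
  have hpos : ForForms (fun _ a _ => a ≤ 2) := by
    intro L hL hr T hT
    refine (dich_iff hr T).1 (Pool.Agent.W921.VP.Final.pos L hL hr T ?_)
    intro σ hσ
    obtain ⟨c, a, b, ha, h⟩ := hT σ hσ
    exact ⟨c, a, b, ha, shape_iff.1 h⟩
  have hbin : ∀ P, FullConjecture → ForFormsBinary P := fun P h L hL _ _ T _ => h L hL T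
  refine ⟨hpos, ⟨fun h => ?_, hbin _⟩, fun a₀ b₀ => ⟨fun h0 => ?_, fun h0 => ⟨fun h => ?_, hbin _⟩⟩⟩
  · refine full_of_q1 (q1_of_vc3 ?_)
    intro L hL hr ha T hT
    refine (dich_iff hr T).2 (h L hL hr ha T ?_)
    intro σ hσ
    rcases hT σ hσ with h1 | h1
    · exact ⟨0, 3, 0, ⟨rfl, Or.inl ⟨rfl, rfl⟩⟩, shape_iff.2 h1⟩
    · exact ⟨0, 2, 1, ⟨rfl, Or.inr ⟨rfl, rfl⟩⟩, shape_iff.2 h1⟩
  · intro L hL hr T hT
    rcases h0 with h0 | rfl
    · refine hpos L hL hr T fun σ hσ => ?_
      obtain ⟨c, a, b, ⟨-, rfl, -⟩, h⟩ := hT σ hσ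
      exact ⟨c, a, b, h0, h⟩
    · refine universal L hL hr T fun σ hσ => ?_
      obtain ⟨c, a, b, ⟨rfl, rfl, rfl⟩, h⟩ := hT σ hσ
      exact ⟨a, h⟩
  · refine full_of_q1 (Pool.Agent.W921.VP.Final.com a₀ b₀ h0.1 h0.2 ?_)
    intro L hL hr ha T hT
    refine (dich_iff hr T).2 (h L hL hr ha T fun σ hσ => ?_)
    exact ⟨0, a₀, b₀, ⟨rfl, rfl, rfl⟩, shape_iff.2 (hT σ hσ)⟩

end Pool.Agent.Results.MP_5df2c5_lc.QuantifierClasses
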