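import Pool.Agent.W875.TS.COI

set_option autoImplicit false

/-!
Vaught's conjecture, in perfect-set form for Borel classes of countable structures, is preserved by
tree sums: structures with a C-relation whose cones are modules, with the structures of the children
of the infinite nodes in a given class.
-/

namespace Pool.Agent.Results.MP_5df2c5_lc.TreeSums

/-- Relational structures on `ℕ` with relations of arities `a 0, a 1, ...`. -/
abbrev Str (a : ℕ → ℕ) : Type := (i : ℕ) → (Fin (a i) → ℕ) → Bool

/-- Structures with further unary predicates. -/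
abbrev UStr (a : ℕ → ℕ) : Type := Str a × (ℕ → ℕ → Bool)

/-- Isomorphism of structures. -/
def Iso {a : ℕ → ℕ} (x y : Str a) : Prop :=
  ∃ σ : Equiv.Perm ℕ, ∀ (i : ℕ) (v : Fin (a i) → ℕ), y i (⇑σ ∘ v) = x i v

/-- Isomorphism of structures with unary predicates. -/
def UIso {a : ℕ → ℕ} (x y : UStr a) : Prop :=
  ∃ σ : Equiv.Perm ℕ, (∀ (i : ℕ) (v : Fin (a i) → ℕ), y.1 i (⇑σ ∘ v) = x.1 i v) ∧
    ∀ i u, y.2 i (σ u) = x.2 i u

/-- The class `V` satisfies Vaught's conjecture, in perfect-set form: every isomorphism-invariant
Borel subclass `B` of `V` has countably many isomorphism types, or there is a continuous family of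
pairwise non-isomorphic members of `B` indexed by the Cantor space. -/
def Vaught {a : ℕ → ℕ} (V : Str a → Prop) : Prop :=
  ∀ B : Set (Str a), MeasurableSet B → (∀ x y, Iso x y → (x ∈ B ↔ y ∈ B)) → (∀ x ∈ B, V x) →
    (∃ f : ℕ → Str a, ∀ x ∈ B, ∃ n, Iso (f n) x) ∨
    (∃ g : (ℕ → Bool) → Str a, Continuous g ∧ (∀ c, g c ∈ B) ∧ ∀ c d, Iso (g c) (g d) → c = d)

/-- The same for the isomorphism-invariant Borel classes of expansions of members of `V` by
countably many unary predicates. -/
def UVaught {a : ℕ → ℕ} (V : Str a → Prop) : Prop :=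
  ∀ B : Set (UStr a), MeasurableSet B → (∀ x y, UIso x y → (x ∈ B ↔ y ∈ B)) →
    (∀ x ∈ B, V x.1) →
    (∃ f : ℕ → UStr a, ∀ x ∈ B, ∃ n, UIso (f n) x) ∨
    (∃ g : (ℕ → Bool) → UStr a, Continuous g ∧ (∀ c, g c ∈ B) ∧
      ∀ c d, UIso (g c) (g d) → c = d)

/-- The tuple `(u, v, w)`. -/
def triple {n : ℕ} (u v w : ℕ) : Fin n → ℕ :=
  fun j => if j.val = 0 then u else if j.val = 1 then v else w

open Classical in
/-- `x` is a tree sum. The ternary relation number `δ` is a C-relation: `δ(u, v, w)` says that the
leaves `u`, `v` of a tree are together in a cone that does not contain `w`. All cones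
`{v | δ(u, v, w)}` are modules for the other relations (`mod`): the value of a relation at a tuple
does not change if an entry is replaced by another point of a cone which does not contain all the
entries. At every node with infinitely many children, if `e` enumerates representatives of the
children (`e l`, `e m`, `e n` branch at the same node, and every point of the node is in the cone of
some `e n`), the structure of the children is in `V`; nodes with finitely many children are
arbitrary. -/
structure TreeSum {a : ℕ → ℕ} (δ : ℕ) (V : Str a → Prop) (x : Str a) : Prop where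
  refl : ∀ u w, u ≠ w → x δ (triple u u w) = true
  irr : ∀ u v, x δ (triple u v u) = false
  symm : ∀ u v w, x δ (triple u v w) = true → x δ (triple v u w) = true
  asymm : ∀ u v w, x δ (triple u v w) = true → x δ (triple u w v) = false
  branch : ∀ u v w, x δ (triple u v w) = true → ∀ z,
    x δ (triple u v z) = true ∨ x δ (triple z v w) = true
  mod : ∀ i, i ≠ δ → ∀ (t : Fin (a i) → ℕ) (k l : Fin (a i)) (b : ℕ),
    x δ (triple (t k) b (t l)) = true → x i (Function.update t k b) = x i t
  nodes : ∀ e : ℕ → ℕ, Function.Injective e →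
    (∀ l m n, l ≠ m → l ≠ n → m ≠ n → x δ (triple (e l) (e m) (e n)) = false) →
    (∀ u, x δ (triple (e 0) (e 1) u) = false → ∃ n, ∀ m, m ≠ n →
      x δ (triple u (e n) (e m)) = true) →
    V (fun i v => if i ≠ δ ∧ ∃ j l, v j ≠ v l then x i (e ∘ v) else false)

theorem treeSum_eq {a : ℕ → ℕ} (δ : ℕ) (V : Str a → Prop) :
    TreeSum δ V = W875.TS.IsTree δ V := by
  funext x
  exact propext ⟨fun h => ⟨h.refl, h.irr, h.symm, h.asymm, h.branch, h.mod, h.nodes⟩,
    fun h => ⟨h.refl, h.irr, h.symm, h.c2, h.c3, h.mod, h.nodes⟩⟩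

/-- If the structures at the infinite nodes satisfy Vaught's conjecture (perfect-set form, Borel
classes, with unary predicates), then the tree sums satisfy Vaught's conjecture. -/
theorem result : ∀ a : ℕ → ℕ, (∀ i, 0 < a i) → ∀ δ : ℕ, a δ = 3 → ∀ V : Str a → Prop,
    UVaught V → UVaught (TreeSum δ V) ∧ Vaught (TreeSum δ V) := by
  intro a ha δ hδ V hV
  rw [treeSum_eq]
  have h := W875.TS.ts_tree a ha δ hδ V hV
  exact ⟨h, H533R2.VS.vs_plain a _ h⟩

end Pool.Agent.Results.MP_5df2c5_lc.TreeSums
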